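import Mathlib
import Pool.Agent.Lib.MP_8c76c5_an.Main

/-!
# An infinitely connected Baker wandering domain whose orbit contains all critical points

There is a transcendental entire function `f` with an infinitely connected Baker wandering domain
`U 0` (with `U k` the Fatou component containing `f^k (U 0)`) such that every critical point of `f`
lies in some `U k`.

The function is `f z = ∑ aₙ z ^ (n + 1)` with `a₀ = 96 * 10 ^ 6`, `aₙ₊₁ = aₙ / rₙ`, `r₀ = 1`,
`rₙ₊₁ = aₙ (rₙ / 3) ^ (n + 1) / (16 (n + 2))`.
-/

set_option autoImplicit false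

open Pool.Agent.Lib.MP_8c76c5_an

theorem Pool.Agent.Results.MP_8c76c5_an.AllCriticalPoints.result :
    ∃ (f : ℂ → ℂ) (U : ℕ → Set ℂ),
      TranscendentalEntire f ∧ BakerWanderingDomain f U ∧ InfinitelyConnected (U 0) ∧
        ∀ c, deriv f c = 0 → ∃ k, c ∈ U k :=
  main
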